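import Pool.Agent.L0h32.UY.Stm

/-!
# UY/FST: a cell is visited for the first time only once
-/

set_option autoImplicit false
set_option linter.all false

namespace Pool.Agent.L0h78.UY

open Pool.Agent.H630R2.LA
open Pool.Agent.L0h32.UX (IsRun)
open Pool.Agent.L0h32.UY

theorem t_FST : S_FST := by
  intro A strict M G w r k hr
  obtain ⟨-, hchain, -⟩ := hr
  have hpw : ∀ l : List (Cfg M), List.IsChain (Step strict w.length) l →
      l.Pairwise (fun c c' : Cfg M => insert c.pos c.seen ⊆ c'.seen) := by
    intro l hl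
    have h2 : List.IsChain (fun c c' : Cfg M => insert c.pos c.seen ⊆ c'.seen) l := by
      refine List.IsChain.imp ?_ hl
      rintro a b ⟨-, q, x, d, -, -, -, -, -, hs, -, -⟩
      exact hs.ge
    haveI : IsTrans (Cfg M) (fun c c' : Cfg M => insert c.pos c.seen ⊆ c'.seen) :=
      ⟨fun a b c hab hbc => hab.trans ((Set.subset_insert _ _).trans hbc)⟩
    exact List.isChain_iff_pairwise.1 h2
  have hp := hpw r hchain
  rw [List.pairwise_iff_getElem] at hp
  intro c hc c' hc' hck hcs hck' hcs'
  obtain ⟨i, hi, rfl⟩ := List.getElem_of_mem hc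
  obtain ⟨j, hj, rfl⟩ := List.getElem_of_mem hc'
  rcases lt_trichotomy i j with h | h | h
  · exact absurd (hp i j hi hj h (Set.mem_insert_iff.2 (Or.inl hck.symm))) hcs'
  · subst h; rfl
  · exact absurd (hp j i hj hi h (Set.mem_insert_iff.2 (Or.inl hck'.symm))) hcs

end Pool.Agent.L0h78.UY
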